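import Pool.Agent.L7h29.CE.Par

set_option autoImplicit false

/-! Project CE, part CUTF. -/

namespace Pool.Agent.L7h29.CE

open Set Pool.Agent.Helper391.Lg Pool.Agent.L7h3.CE

universe u

theorem finite_ends {V : Type u} (e : Sym2 V) : {v | v ∈ e}.Finite := by
  induction e using Sym2.ind with
  | _ a b =>
    apply (Set.toFinite ({a, b} : Set V)).subset
    intro v hv
    simpa using hv

theorem cross {V : Type u} (T : Set (Sym2 V)) (X : Set V) (u v : V)
    (h : (SimpleGraph.fromEdgeSet T).Reachable u v) (hu : u ∈ X) (hv : v ∉ X) :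
    ∃ e ∈ T, (∃ x ∈ e, x ∈ X) ∧ ∃ y ∈ e, y ∉ X := by
  by_contra hcon
  push Not at hcon
  obtain ⟨p⟩ := h
  have key : ∀ (a b : V) (p : (SimpleGraph.fromEdgeSet T).Walk a b), a ∈ X → b ∈ X := by
    intro a b p
    induction p with
    | nil => exact id
    | cons hadj _ ih =>
      intro ha
      apply ih
      rw [SimpleGraph.fromEdgeSet_adj] at hadj
      exact hcon _ hadj.1 ⟨_, Sym2.mem_mk_left _ _, ha⟩ _ (Sym2.mem_mk_right _ _)
  exact hv (key u v p hu)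

/-- in a locally finite graph only finitely many edges meet a finite set -/
theorem meet_finite {V : Type u} (G : SimpleGraph V) (lf : ∀ v, (G.neighborSet v).Finite)
    (K : Set V) (hK : K.Finite) : {e | e ∈ G.edgeSet ∧ ∃ v ∈ e, v ∈ K}.Finite := by
  apply (hK.biUnion (fun v _ => (lf v).image (fun w => s(v, w)))).subset
  rintro e ⟨he, v, hv, hvK⟩
  rw [Set.mem_iUnion₂]
  refine ⟨v, hvK, ?_⟩
  obtain ⟨w, rfl⟩ := Sym2.mem_iff_exists.mp hv
  exact ⟨w, he, rfl⟩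

theorem s_CUTF : S_CUTF.{u} := by
  intro V G lf A B hD X hfin
  have hS : (⋃ e ∈ (A ∩ bd G X), {v | v ∈ e}).Finite := hfin.biUnion (fun e _ => finite_ends e)
  obtain ⟨K, hK, hSK, hKr⟩ := hD.faith _ hS
  apply (meet_finite G lf K hK).subset
  intro e he
  refine ⟨he.1, ?_⟩
  by_contra hcon
  push Not at hcon
  induction e using Sym2.ind with
  | _ a b =>
    have ha : a ∉ K := hcon a (Sym2.mem_mk_left _ _)
    have hb : b ∉ K := hcon b (Sym2.mem_mk_right _ _)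
    have hab := (mem_bd_iff G X a b).mp he
    have hreach : (SimpleGraph.fromEdgeSet (ins G (Set.univ \ K))).Reachable a b := by
      apply SimpleGraph.Adj.reachable
      rw [SimpleGraph.fromEdgeSet_adj]
      refine ⟨⟨hab.1, ?_⟩, hab.1.ne⟩
      intro v hv
      exact ⟨Set.mem_univ _, hcon v hv⟩
    have h2 := hKr a ⟨Set.mem_univ _, ha⟩ b ⟨Set.mem_univ _, hb⟩ hreach
    have h3 : ∃ e ∈ {e | e ∈ A ∧ ∀ x ∈ e, x ∉ ⋃ e ∈ (A ∩ bd G X), {v | v ∈ e}},
        (∃ x ∈ e, x ∈ X) ∧ ∃ y ∈ e, y ∉ X := by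
      rcases hab.2 with ⟨h4, h5⟩ | ⟨h4, h5⟩
      · exact cross _ X a b h2 h4 h5
      · exact cross _ X b a h2.symm h5 h4
    obtain ⟨f, ⟨hfA, hfS⟩, ⟨x, hx, hxX⟩, y, hy, hyX⟩ := h3
    apply hfS x hx
    rw [Set.mem_iUnion₂]
    exact ⟨f, ⟨hfA, (hD.subA hfA).1, ⟨x, hx, hxX⟩, y, hy, hyX⟩, hx⟩

end Pool.Agent.L7h29.CE
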