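import Pool.Agent.L7h29.CE.Cutf

set_option autoImplicit false

/-! Project CE, part ENDS. -/

namespace Pool.Agent.L7h29.CE

open Set Pool.Agent.Helper391.Lg Pool.Agent.L7h3.CE

universe u

theorem s_ENDS (hpar : S_PAR.{u}) (hcutf : S_CUTF.{u}) : S_ENDS.{u} := by
  classical
  intro V G h4 hg
  obtain ⟨A, B, hD⟩ := hg
  obtain ⟨J, hJB, hJ⟩ := hpar V G A B hD
  let ends : G.edgeSet → Sym2 V := fun e =>
    if (e : Sym2 V) ∈ A ∪ J then (e : Sym2 V) else s((e : Sym2 V).out.1, (e : Sym2 V).out.1)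
  have hpos : ∀ e : G.edgeSet, (e : Sym2 V) ∈ A ∪ J → ends e = (e : Sym2 V) := fun e he => if_pos he
  have hneg : ∀ e : G.edgeSet, (e : Sym2 V) ∉ A ∪ J →
      ends e = s((e : Sym2 V).out.1, (e : Sym2 V).out.1) := fun e he => if_neg he
  have hsub : ∀ e : G.edgeSet, ∀ x ∈ ends e, x ∈ (e : Sym2 V) := by
    intro e x hx
    by_cases h : (e : Sym2 V) ∈ A ∪ J
    · rwa [hpos e h] at hx
    · rw [hneg e h] at hx
      have hx' : x = (e : Sym2 V).out.1 := by simpa using hx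
      rw [hx']
      exact Sym2.out_fst_mem _
  have hAG : ∀ e, e ∈ A → e ∈ G.edgeSet := fun e he => (hD.subA he).1
  have hAJ : ∀ e, e ∈ A ∪ J → e ∈ G.edgeSet := by
    rintro e (h | h)
    · exact hAG e h
    · exact (hD.subB (hJB h)).1
  have hcr : ∀ X : Set V, Subtype.val '' (cr ends Set.univ X) = {e | e ∈ A ∪ J ∧ e ∈ bd G X} := by
    intro X
    ext e
    constructor
    · rintro ⟨e, ⟨-, ⟨x, hx, hxX⟩, y, hy, hyX⟩, rfl⟩
      by_cases h : (e : Sym2 V) ∈ A ∪ J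
      · rw [hpos e h] at hx hy
        exact ⟨h, e.2, ⟨x, hx, hxX⟩, y, hy, hyX⟩
      · rw [hneg e h] at hx hy
        have hx' : x = (e : Sym2 V).out.1 := by simpa using hx
        have hy' : y = (e : Sym2 V).out.1 := by simpa using hy
        rw [hy', ← hx'] at hyX
        exact absurd hxX hyX
    · rintro ⟨he, he1, ⟨x, hx, hxX⟩, y, hy, hyX⟩
      refine ⟨⟨e, he1⟩, ⟨Set.mem_univ _, ⟨x, ?_, hxX⟩, y, ?_, hyX⟩, rfl⟩
      · rw [hpos ⟨e, he1⟩ he]; exact hx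
      · rw [hpos ⟨e, he1⟩ he]; exact hy
  refine ⟨ends, hsub, ⟨?_, ?_, ?_⟩, ?_⟩
  · intro v
    have h1 : {e : Sym2 V | e ∈ G.edgeSet ∧ v ∈ e}.Finite := by
      refine ((h4.lf v).image (fun w => s(v, w))).subset ?_
      rintro e ⟨he, hv⟩
      obtain ⟨w, rfl⟩ := Sym2.mem_iff_exists.mp hv
      exact ⟨w, he, rfl⟩
    refine (h1.preimage (Subtype.val_injective.injOn)).subset ?_
    intro e he
    exact ⟨e.2, hsub e v he⟩
  · intro e _ f _ x _ y _
    apply SimpleGraph.Reachable.mono _ (hD.conn x (Set.mem_univ _) y (Set.mem_univ _))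
    apply SimpleGraph.fromEdgeSet_mono
    intro a ha
    exact ⟨⟨a, hAG a ha⟩, Set.mem_univ _, hpos ⟨a, hAG a ha⟩ (Or.inl ha)⟩
  · intro X hX
    rw [← Set.ncard_image_of_injective _ Subtype.val_injective, hcr X]
    apply hJ X
    apply hcutf V G h4.lf A B hD X
    have h1 := hX.image Subtype.val
    rw [hcr X] at h1
    apply h1.subset
    rintro e ⟨h2, h3⟩
    exact ⟨Or.inl h2, h3⟩
  · intro P hP
    have hS : (⋃ e ∈ P, {v | v ∈ (e : Sym2 V)}).Finite := hP.biUnion (fun e _ => finite_ends _)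
    obtain ⟨K, hK, hSK, hKr⟩ := hD.faith _ hS
    refine ⟨K, hK, ?_⟩
    intro a ha b hb hab
    rw [Set.compl_eq_univ_diff] at hab
    apply SimpleGraph.Reachable.mono _ (hKr a ⟨Set.mem_univ _, ha⟩ b ⟨Set.mem_univ _, hb⟩ hab)
    apply SimpleGraph.fromEdgeSet_mono
    rintro e ⟨heA, heS⟩
    refine ⟨⟨e, hAG e heA⟩, ?_, hpos ⟨e, hAG e heA⟩ (Or.inl heA)⟩
    intro heP
    have h5 : e.out.1 ∈ e := Sym2.out_fst_mem _
    apply heS _ h5
    rw [Set.mem_iUnion₂]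
    exact ⟨⟨e, hAG e heA⟩, heP, h5⟩

end Pool.Agent.L7h29.CE
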