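import Pool.Agent.L7h29.CE.Cutf

set_option autoImplicit false

/-! Project CE, part NEST. -/

namespace Pool.Agent.L7h29.CE

open Set Pool.Agent.Helper391.Lg Pool.Agent.L7h3.CE

universe u

theorem s_NEST (href : S_REF.{u}) (hglue : S_GLUE.{u}) (hsing : S_SING.{u}) : S_NEST.{u} := by
  classical
  intro V G h4 D hD S hS
  obtain ⟨i, hi⟩ := Set.countable_iff_exists_injOn.mp hS.countable
  let g : V → ℕ := fun v => if v ∈ S then i v + 1 else 0
  have hgS : ∀ v, v ∈ S → g v = i v + 1 := fun v hv => if_pos hv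
  have hgN : ∀ v, v ∉ S → g v = 0 := fun v hv => if_neg hv
  have hgfin : (g '' D).Finite := by
    apply ((hS.image (fun v => i v + 1)).insert 0).subset
    rintro c ⟨v, _, rfl⟩
    by_cases hv : v ∈ S
    · right; exact ⟨v, hv, (hgS v hv).symm⟩
    · left; exact hgN v hv
  have hcrs : (crs G D g).Finite := by
    apply (meet_finite G h4.lf S hS).subset
    rintro e ⟨he, u, hu, v, hv, huv⟩
    refine ⟨he.1, ?_⟩
    by_contra hcon
    push Not at hcon
    exact huv ((hgN u (hcon u hu)).trans (hgN v (hcon v hv)).symm)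
  obtain ⟨f, hf1, hf2, hf3, hf4⟩ := href V G h4 D hD.1.ne hD.1.fin g hgfin hcrs
  have hex : ∃ c ∈ f '' D, ¬ Good G {v | v ∈ D ∧ f v = c} := by
    by_contra hcon
    push Not at hcon
    exact hD.2 (hglue V G D hD.1 f hf1 hf2 hcon)
  obtain ⟨c, hc, hcbad⟩ := hex
  refine ⟨{v | v ∈ D ∧ f v = c}, fun v hv => hv.1, ?_, hf4 c hc, hcbad⟩
  rw [Set.disjoint_left]
  rintro v ⟨hvD, hvc⟩ hvS
  apply hcbad
  have hone : {w | w ∈ D ∧ f w = c} = {v} := by
    ext w
    simp only [Set.mem_singleton_iff]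
    constructor
    · rintro ⟨hwD, hwc⟩
      have h1 := hf3 w hwD v hvD (hwc.trans hvc.symm)
      rw [hgS v hvS] at h1
      by_cases hw : w ∈ S
      · rw [hgS w hw] at h1
        exact hi hw hvS (by omega)
      · rw [hgN w hw] at h1
        omega
    · rintro rfl
      exact ⟨hvD, hvc⟩
  rw [hone]
  exact hsing V G v

end Pool.Agent.L7h29.CE
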