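import Pool.Agent.L7h3.CE.Stm
import Pool.Agent.Helper391.Lg.P_parity_gen

set_option autoImplicit false

/-! Project CE, parts PAR and CUTF. -/

namespace Pool.Agent.L7h29.CE

open Set Pool.Agent.Helper391.Lg Pool.Agent.L7h3.CE

universe u

theorem mem_bd_iff {V : Type u} (G : SimpleGraph V) (X : Set V) (a b : V) :
    s(a, b) ∈ bd G X ↔ G.Adj a b ∧ ((a ∈ X ∧ b ∉ X) ∨ (a ∉ X ∧ b ∈ X)) := by
  constructor
  · rintro ⟨h1, ⟨v, hv, hvX⟩, w, hw, hwX⟩
    refine ⟨h1, ?_⟩
    rw [Sym2.mem_iff] at hv hw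
    rcases hv with rfl | rfl
    · rcases hw with rfl | rfl
      · exact absurd hvX hwX
      · exact Or.inl ⟨hvX, hwX⟩
    · rcases hw with rfl | rfl
      · exact Or.inr ⟨hwX, hvX⟩
      · exact absurd hvX hwX
  · rintro ⟨h1, h2 | h2⟩
    · exact ⟨h1, ⟨a, Sym2.mem_mk_left a b, h2.1⟩, b, Sym2.mem_mk_right a b, h2.2⟩
    · exact ⟨h1, ⟨b, Sym2.mem_mk_right a b, h2.2⟩, a, Sym2.mem_mk_left a b, h2.1⟩

open Classical in
theorem ind_bd {V : Type u} (G : SimpleGraph V) (X : Set V) (a b : V) (h : G.Adj a b) :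
    (if s(a, b) ∈ bd G X then (1 : ZMod 2) else 0) =
      (if a ∈ X then 1 else 0) + (if b ∈ X then 1 else 0) := by
  have h11 : (1 : ZMod 2) + 1 = 0 := by decide
  by_cases ha : a ∈ X <;> by_cases hb : b ∈ X <;> simp [mem_bd_iff, h, ha, hb, h11]

theorem zmod2_cases (y : ZMod 2) : y = 0 ∨ y = 1 := by
  revert y; decide

theorem s_PAR : S_PAR.{u} := by
  classical
  intro V G A B hD
  let ι := {X : Set V // (bd G X).Finite}
  let κ : ι → Set (Sym2 V) := fun X => bd G X.1
  let w : ι → ZMod 2 := fun X => (((A ∩ bd G X.1).ncard : ℕ) : ZMod 2)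
  have key : ∀ S : Finset ι, (∀ e ∈ B, Even {j | j ∈ S ∧ e ∈ κ j}.ncard) → ∑ j ∈ S, w j = 0 := by
    intro S hS
    let p : V → ZMod 2 := fun v => ∑ X ∈ S, (if v ∈ X.1 then (1 : ZMod 2) else 0)
    have hsum : ∀ a b, G.Adj a b →
        ∑ X ∈ S, (if s(a, b) ∈ κ X then (1 : ZMod 2) else 0) = p a + p b := by
      intro a b hab
      simp only [p, κ]
      rw [← Finset.sum_add_distrib]
      exact Finset.sum_congr rfl fun X _ => ind_bd G X.1 a b hab
    let Y : Set V := {v | p v = 1}
    have hYbd : ∀ a b, s(a, b) ∈ bd G Y → G.Adj a b ∧ p a + p b ≠ 0 := by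
      intro a b h
      rw [mem_bd_iff] at h
      refine ⟨h.1, ?_⟩
      have h01 : (1 : ZMod 2) + 0 ≠ 0 := by decide
      have h10 : (0 : ZMod 2) + 1 ≠ 0 := by decide
      rcases h.2 with ⟨h1, h2⟩ | ⟨h1, h2⟩
      · have h3 : p a = 1 := h1
        have h4 : p b = 0 := (zmod2_cases (p b)).resolve_right h2
        rw [h3, h4]; exact h01
      · have h3 : p a = 0 := (zmod2_cases (p a)).resolve_right h1
        have h4 : p b = 1 := h2
        rw [h3, h4]; exact h10
    have hYfin : (bd G Y).Finite := by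
      apply (S.finite_toSet.biUnion (fun X _ => X.2) : (⋃ X ∈ (S : Set ι), bd G X.1).Finite).subset
      intro e he
      induction e using Sym2.ind with
      | _ a b =>
        obtain ⟨hab, hne⟩ := hYbd a b he
        rw [← hsum a b hab] at hne
        obtain ⟨X, hX, hX2⟩ := Finset.exists_ne_zero_of_sum_ne_zero hne
        rw [Set.mem_iUnion₂]
        refine ⟨X, hX, ?_⟩
        by_contra hcon
        exact hX2 (if_neg hcon)
    have hYB : ∀ e ∈ B, e ∉ bd G Y := by
      intro e he heY
      induction e using Sym2.ind with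
      | _ a b =>
        obtain ⟨hab, hne⟩ := hYbd a b heY
        apply hne
        rw [← hsum a b hab, Finset.sum_boole]
        have h4 : {j | j ∈ S ∧ s(a, b) ∈ κ j} = ((S.filter fun j => s(a, b) ∈ κ j : Finset ι) : Set ι) := by
          ext j; simp
        have h5 := hS _ he
        rw [h4, Set.ncard_coe_finset] at h5
        exact (ZMod.natCast_eq_zero_iff_even).2 h5
    have hconst : ∀ a b, p a = p b := by
      by_cases h1 : Y.Nonempty
      · by_cases h2 : (Set.univ \ Y).Nonempty
        · exfalso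
          obtain ⟨e, he, heY⟩ := hD.meet Y (Set.subset_univ _) h1 h2
            (hYfin.subset Set.inter_subset_right)
          exact hYB e he heY
        · intro a b
          have h3 : ∀ v, p v = 1 := by
            intro v
            by_contra hv
            exact h2 ⟨v, Set.mem_univ _, hv⟩
          rw [h3 a, h3 b]
      · intro a b
        have h3 : ∀ v, p v = 0 := by
          intro v
          apply (zmod2_cases (p v)).resolve_right
          intro hv
          exact h1 ⟨v, hv⟩
        rw [h3 a, h3 b]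
    have heven : ∀ e ∈ A, ∑ X ∈ S, (if e ∈ κ X then (1 : ZMod 2) else 0) = 0 := by
      intro e he
      have heG : e ∈ G.edgeSet := (hD.subA he).1
      induction e using Sym2.ind with
      | _ a b =>
        rw [hsum a b heG, hconst a b]
        exact CharTwo.add_self_eq_zero _
    have hTfin : (⋃ X ∈ (S : Set ι), (A ∩ bd G X.1)).Finite :=
      S.finite_toSet.biUnion (fun X _ => X.2.subset Set.inter_subset_right)
    let T : Finset (Sym2 V) := hTfin.toFinset
    have hw : ∀ X ∈ S, w X = ∑ e ∈ T, (if e ∈ κ X then (1 : ZMod 2) else 0) := by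
      intro X hX
      rw [Finset.sum_boole]
      simp only [w]
      congr 1
      rw [← Set.ncard_coe_finset]
      congr 1
      ext e
      simp only [Finset.coe_filter, Set.mem_setOf_eq, Set.mem_inter_iff, κ]
      constructor
      · rintro ⟨h1, h2⟩
        refine ⟨?_, h2⟩
        simp only [T, Set.Finite.mem_toFinset, Set.mem_iUnion₂]
        exact ⟨X, hX, h1, h2⟩
      · rintro ⟨h1, h2⟩
        simp only [T, Set.Finite.mem_toFinset, Set.mem_iUnion₂] at h1
        obtain ⟨_, _, h3, _⟩ := h1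
        exact ⟨h3, h2⟩
    rw [Finset.sum_congr rfl hw, Finset.sum_comm]
    apply Finset.sum_eq_zero
    intro e he
    apply heven
    simp only [T, Set.Finite.mem_toFinset, Set.mem_iUnion₂] at he
    obtain ⟨_, _, h3, _⟩ := he
    exact h3
  obtain ⟨J, hJB, hJ⟩ := parity_gen B κ (fun X => X.2) w key
  refine ⟨J, hJB, ?_⟩
  intro X hX
  have h1 := hJ ⟨X, hX⟩
  rw [← ZMod.natCast_eq_zero_iff_even]
  have hset : {e | e ∈ A ∪ J ∧ e ∈ bd G X} = (A ∩ bd G X) ∪ {e | e ∈ J ∧ e ∈ bd G X} := by
    ext e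
    simp only [Set.mem_setOf_eq, Set.mem_union, Set.mem_inter_iff]
    tauto
  rw [hset, Set.ncard_union_eq _ (hX.subset Set.inter_subset_right)
    (hX.subset (fun e he => he.2)), Nat.cast_add]
  · have h2 : (({e | e ∈ J ∧ e ∈ bd G X}.ncard : ℕ) : ZMod 2) = (((A ∩ bd G X).ncard : ℕ) : ZMod 2) := h1
    rw [h2]
    exact CharTwo.add_self_eq_zero _
  · rw [Set.disjoint_left]
    rintro e ⟨h3, _⟩ ⟨h4, _⟩
    exact Set.disjoint_left.mp hD.disj h3 (hJB h4)

end Pool.Agent.L7h29.CE
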